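import Pool.Agent.Helper40.Nil.Stmts2

set_option autoImplicit false

namespace Pool.Agent.Helper40.Nil

open Filter Topology
open scoped ComplexConjugate InnerProductSpace ComplexOrder

universe u v w

/-- conjugation by `t` on `D` -/
def entqC {Γ : Type v} [Group Γ] (t : Γ) (D : Subgroup Γ) (hD : ∀ y, y ∈ D ↔ t * y * t⁻¹ ∈ D) :
    D ≃* D where
  toFun d := ⟨t * d * t⁻¹, (hD d).1 d.2⟩
  invFun d := ⟨t⁻¹ * d * t, (hD _).2 (by
    have : t * (t⁻¹ * (d : Γ) * t) * t⁻¹ = d := by group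
    rw [this]
    exact d.2)⟩
  left_inv d := by
    apply Subtype.ext
    show t⁻¹ * (t * (d : Γ) * t⁻¹) * t = d
    group
  right_inv d := by
    apply Subtype.ext
    show t * (t⁻¹ * (d : Γ) * t) * t⁻¹ = d
    group
  map_mul' a b := by
    apply Subtype.ext
    show t * ((a : Γ) * (b : Γ)) * t⁻¹ = (t * (a : Γ) * t⁻¹) * (t * (b : Γ) * t⁻¹)
    group

theorem entqC_iter {Γ : Type v} [Group Γ] (t : Γ) (D : Subgroup Γ)
    (hD : ∀ y, y ∈ D ↔ t * y * t⁻¹ ∈ D) (n : ℕ) (d : D) :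
    (((entqC t D hD)^[n] d : D) : Γ) = t ^ n * d * (t ^ n)⁻¹ := by
  induction n with
  | zero => simp
  | succ n ih =>
    rw [Function.iterate_succ_apply']
    show t * (((entqC t D hD)^[n] d : D) : Γ) * t⁻¹ = _
    rw [ih, pow_succ' t n, mul_inv_rev]
    group

/-- the induced automorphism of the abelianization, written additively -/
noncomputable def entqX {D : Type v} [Group D] (c : D ≃* D) :
    Additive (Abelianization D) ≃+ Additive (Abelianization D) :=
  MulEquiv.toAdditive c.abelianizationCongr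

theorem entqX_of {D : Type v} [Group D] (c : D ≃* D) (d : D) :
    entqX c (Additive.ofMul (Abelianization.of d)) = Additive.ofMul (Abelianization.of (c d)) :=
  rfl

theorem entqX_iter {D : Type v} [Group D] (c : D ≃* D) (n : ℕ) (d : D) :
    (entqX c)^[n] (Additive.ofMul (Abelianization.of d)) =
      Additive.ofMul (Abelianization.of (c^[n] d)) := by
  induction n with
  | zero => rfl
  | succ n ih =>
    rw [Function.iterate_succ_apply', ih, entqX_of, Function.iterate_succ_apply']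

theorem entq_alpha {A : Type u} [CStarAlgebra A] {Γ : Type v} [Group Γ] (G : Subgroup Γ) (h : Γ)
    (hG : ∀ g, g ∈ G ↔ h * g * h⁻¹ ∈ G) (U : G →* unitary A) (α : A →⋆ₐ[ℂ] A)
    (hα : ∀ g : G, α (U g : A) = (U ⟨h * g * h⁻¹, (hG g).1 g.2⟩ : A)) (g : G) (n : ℕ) :
    ∃ g' : G, (g' : Γ) = h ^ n * g * (h ^ n)⁻¹ ∧ α^[n] (U g : A) = (U g' : A) := by
  induction n with
  | zero => exact ⟨g, by simp, rfl⟩
  | succ n ih =>
    obtain ⟨g', h1, h2⟩ := ih
    refine ⟨⟨h * g' * h⁻¹, (hG g').1 g'.2⟩, ?_, ?_⟩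
    · show h * (g' : Γ) * h⁻¹ = _
      rw [h1, pow_succ' h n, mul_inv_rev]
      group
    · rw [Function.iterate_succ_apply', h2, hα]

theorem entq_norm {A : Type u} [CStarAlgebra A] [Nontrivial A] (x : unitary A) :
    ‖(x : A)‖ ≤ 1 := le_of_eq (CStarRing.norm_of_mem_unitary x.2)

theorem st_ENTQ (hE : ST_ENTLOW.{u, w}) (hF : ST_FOLN.{v}) (hL : ST_L1.{u, v})
    (hM : ST_MODL.{v}) : ST_ENTQ.{u, v, w} := by
  intro A _ Γ _ G h hG U τ hτ hτU α hα H _ _ _ π hπ hZ g hg q hq D hDG hDn hD y hy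
  have hnt : Nontrivial A := by
    by_contra hn
    rw [not_nontrivial_iff_subsingleton] at hn
    have : τ = 0 := by
      ext a
      rw [Subsingleton.elim a 0]
      simp
    have h1 := hτ.2
    rw [this, norm_zero] at h1
    exact zero_ne_one h1
  set t : Γ := g * h ^ q * g⁻¹ with ht
  set c := entqC t D hD with hc
  set X := entqX c with hX
  -- the group D as a subgroup of G
  let φ := Subgroup.subgroupOfEquivOfLe hDG
  let f : (D.subgroupOf G) →* Abelianization D := Abelianization.of.comp φ.toMonoidHom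
  have hn1 : Group.IsNilpotent (D.subgroupOf G) := Group.nilpotent_of_mulEquiv φ.symm
  have hn2 : Group.IsNilpotent f.ker := Subgroup.isNilpotent f.ker
  have hfol := hF f.ker hn2
  have key : ∀ y : Additive (Abelianization D), ∀ M : ℕ, 1 ≤ M → y ≠ 0 →
      ∃ (n : ℕ) (η : Fin n → ℤ), (∀ j, |η j| ≤ 2) ∧
        ∑ j : Fin n, η j • (X^[(j : ℕ) * M] y) = 0 ∧
        ∃ j : Fin n, η j • (X^[(j : ℕ) * M] y) ≠ 0 := by
    intro y M hM1 hy0
    by_contra hcon
    push Not at hcon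
    obtain ⟨y0, hy0'⟩ : ∃ y0 : D, Additive.ofMul (Abelianization.of y0) = y := by
      obtain ⟨y0, h0⟩ := QuotientGroup.mk_surjective (Additive.toMul y)
      exact ⟨y0, by
        rw [← ofMul_toMul y]
        exact congrArg Additive.ofMul h0⟩
    -- the element of G
    have hgy : g⁻¹ * (y0 : Γ) * g ∈ G := G.mul_mem (G.mul_mem (G.inv_mem hg) (hDG y0.2)) hg
    set a : A := (U ⟨g⁻¹ * (y0 : Γ) * g, hgy⟩ : A) with ha
    have hanorm : ∀ n, ‖(α : A → A)^[n] a‖ ≤ 1 := by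
      intro n
      obtain ⟨g', _, h2⟩ := entq_alpha G h hG U α hα ⟨g⁻¹ * (y0 : Γ) * g, hgy⟩ n
      rw [ha, h2]
      exact entq_norm _
    obtain ⟨n, e, he, hlt⟩ := hE A H π hπ α hZ a hanorm (q * M)
      (Nat.mul_pos hq hM1) (1 / 2) (by norm_num)
    -- the elements x j
    let x : Fin n → D.subgroupOf G := fun j => φ.symm (c^[(j : ℕ) * M] y0)
    have hfx : ∀ j, f (x j) = Abelianization.of (c^[(j : ℕ) * M] y0) := by
      intro j
      show Abelianization.of (φ (φ.symm (c^[(j : ℕ) * M] y0))) = _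
      rw [MulEquiv.apply_symm_apply]
    have hfX : ∀ j, Additive.ofMul (f (x j)) = X^[(j : ℕ) * M] y := by
      intro j
      rw [hfx, ← hy0', hX, entqX_iter]
    have hxG : ∀ j, (((x j : G)) : Γ) = t ^ ((j : ℕ) * M) * y0 * (t ^ ((j : ℕ) * M))⁻¹ := by
      intro j
      have h1 : (((x j : G)) : Γ) = ((c^[(j : ℕ) * M] y0 : D) : Γ) := by
        have h2 := congrArg (fun d : D => (d : Γ))
          (MulEquiv.apply_symm_apply φ (c^[(j : ℕ) * M] y0))
        exact h2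
      rw [h1, hc, entqC_iter]
    have hge := hL A G U τ hτ hτU (D.subgroupOf G) (Abelianization D) f hfol n x (by
      intro j hj
      have h1 := hfX j
      rw [hj] at h1
      have h2 : X^[(j : ℕ) * M] y = X^[(j : ℕ) * M] 0 := by
        rw [← h1]
        rw [Function.iterate_fixed (map_zero X)]
        rfl
      exact hy0 (X.injective.iterate _ h2)) (by
      intro η hη hprod j
      have h1 : ∑ j : Fin n, η j • (X^[(j : ℕ) * M] y) = 0 := by
        have h2 := congrArg Additive.ofMul hprod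
        rw [ofMul_prod, ofMul_one] at h2
        rw [← h2]
        refine Finset.sum_congr rfl (fun i _ => ?_)
        rw [ofMul_zpow, hfX]
      have h3 := hcon n η hη h1 j
      rw [← hfX, ← ofMul_zpow] at h3
      exact Additive.ofMul.injective h3) e he
    -- comparison
    have hconj : ∀ j : Fin n, (U (x j : G) : A) =
        (U ⟨g, hg⟩ : A) * ((α : A → A)^[(j : ℕ) * (q * M)] a) * (U ⟨g, hg⟩⁻¹ : A) := by
      intro j
      obtain ⟨g', h1, h2⟩ := entq_alpha G h hG U α hα ⟨g⁻¹ * (y0 : Γ) * g, hgy⟩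
        ((j : ℕ) * (q * M))
      rw [ha, h2]
      have h3 : (x j : G) = ⟨g, hg⟩ * g' * (⟨g, hg⟩ : G)⁻¹ := by
        apply Subtype.ext
        rw [hxG]
        show _ = g * (g' : Γ) * g⁻¹
        rw [h1, ht]
        show (g * h ^ q * g⁻¹) ^ ((j : ℕ) * M) * (y0 : Γ) * ((g * h ^ q * g⁻¹) ^ ((j : ℕ) * M))⁻¹ =
          g * (h ^ ((j : ℕ) * (q * M)) * (g⁻¹ * (y0 : Γ) * g) * (h ^ ((j : ℕ) * (q * M)))⁻¹) * g⁻¹
        rw [conj_pow, ← pow_mul]
        have e1 : q * ((j : ℕ) * M) = (j : ℕ) * (q * M) := by ring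
        rw [e1]
        group
      rw [h3, map_mul, map_mul]
      simp only [Submonoid.coe_mul]
    have hsum : ∑ j, ((e j : ℝ) : ℂ) • (U (x j : G) : A) =
        (U ⟨g, hg⟩ : A) * (∑ j : Fin n, ((e j : ℝ) : ℂ) • (α : A → A)^[(j : ℕ) * (q * M)] a) *
          (U ⟨g, hg⟩⁻¹ : A) := by
      rw [Finset.mul_sum, Finset.sum_mul]
      refine Finset.sum_congr rfl (fun j _ => ?_)
      rw [hconj, mul_smul_comm, smul_mul_assoc]
    rw [hsum] at hge
    have b1 := norm_mul_le ((U ⟨g, hg⟩ : A) *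
      (∑ j : Fin n, ((e j : ℝ) : ℂ) • (α : A → A)^[(j : ℕ) * (q * M)] a)) (U ⟨g, hg⟩⁻¹ : A)
    have b2 := norm_mul_le (U ⟨g, hg⟩ : A)
      (∑ j : Fin n, ((e j : ℝ) : ℂ) • (α : A → A)^[(j : ℕ) * (q * M)] a)
    have b3 := entq_norm (U ⟨g, hg⟩)
    have b4 : ‖(U ⟨g, hg⟩⁻¹ : A)‖ ≤ 1 := entq_norm _
    have b5 := norm_nonneg (∑ j : Fin n, ((e j : ℝ) : ℂ) • (α : A → A)^[(j : ℕ) * (q * M)] a)
    have b6 := norm_nonneg (U ⟨g, hg⟩ : A)
    have b7 := norm_nonneg ((U ⟨g, hg⟩ : A) *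
      (∑ j : Fin n, ((e j : ℝ) : ℂ) • (α : A → A)^[(j : ℕ) * (q * M)] a))
    have b8 : ‖(U ⟨g, hg⟩ : A) *
        (∑ j : Fin n, ((e j : ℝ) : ℂ) • (α : A → A)^[(j : ℕ) * (q * M)] a)‖ *
        ‖(U ⟨g, hg⟩⁻¹ : A)‖ ≤ ‖(U ⟨g, hg⟩ : A) *
        (∑ j : Fin n, ((e j : ℝ) : ℂ) • (α : A → A)^[(j : ℕ) * (q * M)] a)‖ * 1 :=
      mul_le_mul_of_nonneg_left b4 b7
    have b9 : ‖(U ⟨g, hg⟩ : A)‖ *
        ‖∑ j : Fin n, ((e j : ℝ) : ℂ) • (α : A → A)^[(j : ℕ) * (q * M)] a‖ ≤
        1 * ‖∑ j : Fin n, ((e j : ℝ) : ℂ) • (α : A → A)^[(j : ℕ) * (q * M)] a‖ :=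
      mul_le_mul_of_nonneg_right b3 b5
    linarith
  obtain ⟨k, e, hk, hke⟩ := hM (Additive (Abelianization D)) X key
    (Additive.ofMul (Abelianization.of ⟨y, hy⟩))
  refine ⟨k, e, hk, ?_⟩
  -- transfer
  let F : D → D := fun d => c^[k] d * d⁻¹
  have hFX : ∀ (m : ℕ) (d : D), (fun y => X^[k] y - y)^[m] (Additive.ofMul (Abelianization.of d)) =
      Additive.ofMul (Abelianization.of (F^[m] d)) := by
    intro m d
    induction m with
    | zero => rfl
    | succ m ih =>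
      rw [Function.iterate_succ_apply', ih, Function.iterate_succ_apply' F]
      show X^[k] (Additive.ofMul (Abelianization.of (F^[m] d))) -
        Additive.ofMul (Abelianization.of (F^[m] d)) = _
      rw [hX, entqX_iter]
      show _ = Additive.ofMul (Abelianization.of (c^[k] (F^[m] d) * (F^[m] d)⁻¹))
      rw [map_mul, map_inv, ofMul_mul, ofMul_inv, sub_eq_add_neg]
  have hFG : ∀ (m : ℕ) (d : D), ((F^[m] d : D) : Γ) =
      (fun y => t ^ k * y * (t ^ k)⁻¹ * y⁻¹)^[m] (d : Γ) := by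
    intro m d
    induction m with
    | zero => rfl
    | succ m ih =>
      rw [Function.iterate_succ_apply', Function.iterate_succ_apply', ← ih]
      show ((c^[k] (F^[m] d) : D) : Γ) * ((F^[m] d : D) : Γ)⁻¹ = _
      rw [hc, entqC_iter]
  have h1 : Abelianization.of (F^[e] ⟨y, hy⟩) = 1 := by
    have h2 := hFX e ⟨y, hy⟩
    rw [hke] at h2
    exact Additive.ofMul.injective h2.symm
  have h3 : F^[e] ⟨y, hy⟩ ∈ commutator D := by
    rw [← Abelianization.ker_of]
    exact h1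
  have h4 : ((F^[e] ⟨y, hy⟩ : D) : Γ) ∈ (⁅D, D⁆ : Subgroup Γ) := by
    rw [← Subgroup.map_subtype_commutator]
    exact ⟨_, h3, rfl⟩
  rw [hFG] at h4
  exact h4

end Pool.Agent.Helper40.Nil
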